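import Mathlib

/-!
# Sets on which continuous injections are embeddings: the necessary condition
-/

set_option autoImplicit false

open Topology Set Metric Filter

namespace Pool.Agent.Y240.IR

variable {E : Type*} [NormedAddCommGroup E] [InnerProductSpace ℝ E]

/-- the map which blows up the origin to the closed unit ball -/
noncomputable def blow (w : E) : E := (1 + ‖w‖⁻¹) • w

theorem norm_blow {w : E} (hw : w ≠ 0) : ‖blow w‖ = ‖w‖ + 1 := by
  have h : ‖w‖ ≠ 0 := norm_ne_zero_iff.2 hw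
  have h0 : 0 ≤ 1 + ‖w‖⁻¹ := by positivity
  rw [blow, norm_smul, Real.norm_eq_abs, abs_of_nonneg h0]
  field_simp

theorem blow_inj {v w : E} (hv : v ≠ 0) (hw : w ≠ 0) (h : blow v = blow w) : v = w := by
  have hn : ‖v‖ = ‖w‖ := by
    have := norm_blow hv
    rw [h, norm_blow hw] at this
    linarith
  unfold blow at h
  rw [hn] at h
  have h0 : 1 + ‖w‖⁻¹ ≠ 0 := by positivity
  exact smul_right_injective E h0 h

theorem blow_cont : ContinuousOn (blow : E → E) {w | w ≠ 0} := by
  unfold blow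
  apply ContinuousOn.smul _ continuousOn_id
  apply continuousOn_const.add
  apply ContinuousOn.inv₀ continuous_norm.continuousOn
  intro y hy
  exact norm_ne_zero_iff.2 hy

theorem blow_lim [FiniteDimensional ℝ E] {S : Set E} (hS : ∀ s ∈ S, s ≠ 0)
    (h0 : (0 : E) ∈ closure S) : ∃ q : E, ‖q‖ = 1 ∧ q ∈ closure (blow '' S) := by
  obtain ⟨s, hs, hlim⟩ := mem_closure_iff_seq_limit.1 h0
  have hmem : ∀ n, ‖s n‖⁻¹ • s n ∈ sphere (0 : E) 1 := by
    intro n
    have : ‖s n‖ ≠ 0 := norm_ne_zero_iff.2 (hS _ (hs n))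
    rw [mem_sphere_zero_iff_norm, norm_smul, norm_inv, norm_norm, inv_mul_cancel₀ this]
  obtain ⟨q, hq, φ, hφ, hφlim⟩ := (isCompact_sphere (0 : E) 1).tendsto_subseq hmem
  refine ⟨q, mem_sphere_zero_iff_norm.1 hq, ?_⟩
  apply mem_closure_iff_seq_limit.2
  refine ⟨fun n => blow (s (φ n)), fun n => ⟨_, hs _, rfl⟩, ?_⟩
  have h1 : Tendsto (fun n => s (φ n) + ‖s (φ n)‖⁻¹ • s (φ n)) atTop (𝓝 (0 + q)) :=
    (hlim.comp hφ.tendsto_atTop).add hφlim
  rw [zero_add] at h1
  refine h1.congr (fun n => ?_)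
  unfold blow
  rw [add_smul, one_smul]

/-- the inversion -/
noncomputable def iv (z : E) : E := (‖z‖ ^ 2)⁻¹ • z

theorem norm_iv (z : E) : ‖iv z‖ = ‖z‖⁻¹ := by
  rw [iv, norm_smul, norm_inv, norm_pow, norm_norm]
  rcases eq_or_ne ‖z‖ 0 with h | h
  · rw [h]; simp
  · field_simp

theorem iv_iv {z : E} (hz : z ≠ 0) : iv (iv z) = z := by
  have h : ‖z‖ ≠ 0 := norm_ne_zero_iff.2 hz
  have h1 : iv (iv z) = (‖iv z‖ ^ 2)⁻¹ • iv z := rfl
  rw [h1, norm_iv]
  unfold iv
  rw [smul_smul]
  have : ((‖z‖⁻¹ ^ 2)⁻¹ * (‖z‖ ^ 2)⁻¹) = 1 := by field_simp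
  rw [this, one_smul]

theorem iv_inj {v w : E} (hv : v ≠ 0) (hw : w ≠ 0) (h : iv v = iv w) : v = w := by
  rw [← iv_iv hv, h, iv_iv hw]

theorem iv_cont : ContinuousOn (iv : E → E) {w | w ≠ 0} := by
  unfold iv
  apply ContinuousOn.smul _ continuousOn_id
  apply ContinuousOn.inv₀ (by fun_prop)
  intro y hy
  exact pow_ne_zero 2 (norm_ne_zero_iff.2 hy)

/-- a noncompact set is moved to a set whose closure contains the origin -/
theorem exists_h [FiniteDimensional ℝ E] (B : Set E) (hB : ¬ IsCompact B) (a : E) (ha : a ∉ B) :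
    ∃ h : E → E, ContinuousOn h B ∧ InjOn h B ∧ (∀ z ∈ B, h z ≠ 0) ∧ (0 : E) ∈ closure (h '' B) := by
  by_cases hb : Bornology.IsBounded B
  · have hc : ¬ IsClosed B := fun hc => hB (Metric.isCompact_iff_isClosed_bounded.2 ⟨hc, hb⟩)
    obtain ⟨p, hp, hpB⟩ : ∃ p ∈ closure B, p ∉ B := by
      by_contra hno
      push Not at hno
      exact hc (isClosed_of_closure_subset hno)
    refine ⟨fun z => z - p, by fun_prop, ?_, ?_, ?_⟩
    · intro x _ y _ hxy
      exact sub_left_injective hxy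
    · intro z hz h
      rw [sub_eq_zero] at h
      exact hpB (h ▸ hz)
    · have h1 : Continuous (fun z : E => z - p) := by fun_prop
      have h2 := image_closure_subset_closure_image (s := B) h1
      apply h2
      exact ⟨p, hp, sub_self p⟩
  · have hne : ∀ z ∈ B, z - a ≠ 0 := by
      intro z hz h
      rw [sub_eq_zero] at h
      exact ha (h ▸ hz)
    refine ⟨fun z => iv (z - a), ?_, ?_, ?_, ?_⟩
    · exact iv_cont.comp (by fun_prop) (fun z hz => hne z hz)
    · intro x hx y hy hxy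
      exact sub_left_injective (iv_inj (hne x hx) (hne y hy) hxy)
    · intro z hz h
      have h1 := norm_iv (z - a)
      simp only at h
      rw [h, norm_zero] at h1
      exact norm_ne_zero_iff.2 (hne z hz) (inv_eq_zero.1 h1.symm)
    · rw [Metric.mem_closure_iff]
      intro ε hε
      have h1 : ∃ z ∈ B, ε⁻¹ < ‖z - a‖ := by
        by_contra hno
        push Not at hno
        apply hb
        apply (Metric.isBounded_closedBall (x := a) (r := ε⁻¹)).subset
        intro z hz
        rw [mem_closedBall, dist_eq_norm]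
        exact hno z hz
      obtain ⟨z, hz, hz2⟩ := h1
      refine ⟨_, ⟨z, hz, rfl⟩, ?_⟩
      rw [dist_eq_norm, zero_sub, norm_neg, norm_iv]
      exact inv_lt_of_inv_lt₀ hε hz2

/-- The necessary condition. -/
theorem nec [FiniteDimensional ℝ E] (X : Set E) [LocallyCompactSpace X] (A : Set X)
    (hA : IsClopen A) (hAx : ∃ x ∈ A, (x : E) ∉ interior X) (hB : ¬ IsCompact Aᶜ) :
    ∃ f : X → E, Continuous f ∧ Function.Injective f ∧ ¬ IsEmbedding f := by
  classical
  obtain ⟨a, haA, hai⟩ := hAx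
  obtain ⟨K, hKc, haK, hKA⟩ := exists_compact_subset hA.isOpen haA
  obtain ⟨V', hV'o, hV'⟩ := isOpen_induced_iff.1 (isOpen_interior (s := K))
  have haV : (a : E) ∈ V' := by
    have : a ∈ Subtype.val ⁻¹' V' := by rw [hV']; exact haK
    exact this
  obtain ⟨r, hr, hrV⟩ := Metric.isOpen_iff.1 hV'o _ haV
  have hrK : ∀ z : X, (z : E) ∈ ball (a : E) r → z ∈ K := by
    intro z hz
    have : z ∈ Subtype.val ⁻¹' V' := hrV hz
    rw [hV'] at this
    exact interior_subset this
  obtain ⟨c, hc, hcA⟩ : ∃ c ∈ ball (a : E) (r / 3), c ∉ Subtype.val '' A := by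
    by_contra hno
    push Not at hno
    apply hai
    rw [mem_interior]
    refine ⟨ball (a : E) (r / 3), ?_, isOpen_ball, mem_ball_self (by positivity)⟩
    intro z hz
    obtain ⟨y, _, rfl⟩ := hno z hz
    exact y.2
  obtain ⟨a', ha'K, hmin⟩ := hKc.exists_isMinOn ⟨a, interior_subset haK⟩
    (f := fun z : X => dist c (z : E)) (by fun_prop)
  have ha'A : a' ∈ A := hKA ha'K
  have hρ : 0 < dist c (a' : E) := by
    rw [dist_pos]
    rintro h
    exact hcA ⟨a', ha'A, h.symm⟩
  have hρa : dist c (a' : E) ≤ dist c (a : E) := hmin (interior_subset haK)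
  have hca : dist c (a : E) < r / 3 := hc
  have hall : ∀ z ∈ A, dist c (a' : E) ≤ dist c (z : E) := by
    intro z hz
    by_contra hlt
    push Not at hlt
    have hzK : z ∈ K := by
      apply hrK
      rw [mem_ball]
      have h1 := dist_triangle (z : E) c (a : E)
      rw [dist_comm (z : E) c] at h1
      linarith
    have := hmin hzK
    simp only [mem_ofPred_eq] at this
    linarith
  generalize hρdef : dist c (a' : E) = ρ at hρ hall
  have hne : ∀ z ∈ A, (z : E) - c ≠ 0 := by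
    intro z hz h
    rw [sub_eq_zero] at h
    exact hcA ⟨z, hz, h⟩
  -- the map on `A`
  have hfA1 : ∀ z ∈ A, ‖ρ • iv ((z : E) - c)‖ ≤ 1 := by
    intro z hz
    have h1 := hall z hz
    rw [dist_comm, dist_eq_norm] at h1
    have h2 : 0 < ‖(z : E) - c‖ := norm_pos_iff.2 (hne z hz)
    rw [norm_smul, norm_iv, Real.norm_eq_abs, abs_of_pos hρ, ← div_eq_mul_inv, div_le_one h2]
    exact h1
  have hfA2 : ‖ρ • iv ((a' : E) - c)‖ = 1 := by
    have h1 := hρdef
    rw [dist_comm, dist_eq_norm] at h1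
    rw [norm_smul, norm_iv, Real.norm_eq_abs, abs_of_pos hρ, h1, mul_inv_cancel₀ hρ.ne']
  -- the map on the complement
  have hBE : ¬ IsCompact (Subtype.val '' Aᶜ : Set E) := by
    rw [← Subtype.isCompact_iff]
    exact hB
  obtain ⟨h, hh1, hh2, hh3, hh4⟩ := exists_h (Subtype.val '' Aᶜ : Set E) hBE (a' : E) (by
    rintro ⟨y, hy, hya⟩
    exact hy (Subtype.val_injective hya ▸ ha'A))
  have hmemB : ∀ y ∉ A, (y : E) ∈ (Subtype.val '' Aᶜ : Set E) := fun y hy => ⟨y, hy, rfl⟩
  obtain ⟨q, hq, hqc⟩ := blow_lim (S := h '' (Subtype.val '' Aᶜ : Set E))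
    (by rintro _ ⟨z, hz, rfl⟩; exact hh3 z hz) hh4
  obtain ⟨T, hT⟩ : ∃ T : E ≃ₗᵢ[ℝ] E, T q = ρ • iv ((a' : E) - c) :=
    ⟨(ℝ ∙ (q - ρ • iv ((a' : E) - c)))ᗮ.reflection, Submodule.reflection_sub (by rw [hq, hfA2])⟩
  have hcA' : ContinuousOn (fun z : X => ρ • iv ((z : E) - c)) A := by
    apply ContinuousOn.const_smul
    exact iv_cont.comp (by fun_prop) (fun z hz => hne z hz)
  have hcB1 : ContinuousOn (fun z : X => h (z : E)) Aᶜ :=
    hh1.comp continuous_subtype_val.continuousOn (fun z hz => hmemB z hz)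
  have hcB2 : ContinuousOn (fun z : X => blow (h (z : E))) Aᶜ :=
    blow_cont.comp hcB1 (fun z hz => hh3 _ (hmemB z hz))
  have hcB' : ContinuousOn (fun z : X => T (blow (h z))) Aᶜ :=
    T.continuous.comp_continuousOn hcB2
  refine ⟨fun z => if z ∈ A then ρ • iv ((z : E) - c) else T (blow (h z)), ?_, ?_, ?_⟩
  · rw [continuous_iff_continuousAt]
    intro z
    by_cases hz : z ∈ A
    · refine (hcA'.continuousAt (hA.isOpen.mem_nhds hz)).congr ?_
      filter_upwards [hA.isOpen.mem_nhds hz] with y hy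
      rw [if_pos hy]
    · refine (hcB'.continuousAt (hA.compl.isOpen.mem_nhds hz)).congr ?_
      filter_upwards [hA.compl.isOpen.mem_nhds hz] with y hy
      rw [if_neg hy]
  · intro z w hzw
    simp only at hzw
    by_cases hz : z ∈ A
    · by_cases hw : w ∈ A
      · rw [if_pos hz, if_pos hw] at hzw
        have h1 := smul_right_injective E hρ.ne' hzw
        have h2 := iv_inj (hne z hz) (hne w hw) h1
        exact Subtype.val_injective (sub_left_injective h2)
      · exfalso
        rw [if_pos hz, if_neg hw] at hzw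
        have h1 := hfA1 z hz
        rw [hzw, T.norm_map, norm_blow (hh3 w (hmemB w hw))] at h1
        have := norm_pos_iff.2 (hh3 w (hmemB w hw))
        linarith
    · by_cases hw : w ∈ A
      · exfalso
        rw [if_neg hz, if_pos hw] at hzw
        have h1 := hfA1 w hw
        rw [← hzw, T.norm_map, norm_blow (hh3 z (hmemB z hz))] at h1
        have := norm_pos_iff.2 (hh3 z (hmemB z hz))
        linarith
      · rw [if_neg hz, if_neg hw] at hzw
        have h1 := T.injective hzw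
        have h2 := blow_inj (hh3 z (hmemB z hz)) (hh3 w (hmemB w hw)) h1
        exact Subtype.val_injective (hh2 (hmemB z hz) (hmemB w hw) h2)
  · intro hemb
    have h1 : A ∈ 𝓝 a' := hA.isOpen.mem_nhds ha'A
    rw [hemb.isInducing.nhds_eq_comap, Filter.mem_comap] at h1
    obtain ⟨t, ht, htA⟩ := h1
    rw [if_pos ha'A, ← hT] at ht
    have h2 : T q ∈ closure (T '' (blow '' (h '' (Subtype.val '' Aᶜ : Set E)))) :=
      image_closure_subset_closure_image T.continuous ⟨q, hqc, rfl⟩
    obtain ⟨w, hw1, hw2⟩ := mem_closure_iff_nhds.1 h2 t ht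
    obtain ⟨_, ⟨_, ⟨_, ⟨y, hy, rfl⟩, rfl⟩, rfl⟩, rfl⟩ := hw2
    apply hy
    apply htA
    show (if y ∈ A then ρ • iv ((y : E) - c) else T (blow (h y))) ∈ t
    rw [if_neg hy]
    exact hw1

end Pool.Agent.Y240.IR
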