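import Mathlib

/-!
# A half-infinite strip is not injectively rigid
-/

set_option autoImplicit false

open Topology Set Filter

namespace Pool.Agent.Y240.IR

/-- a half-infinite strip -/
def strip : Set (EuclideanSpace ℝ (Fin 2)) := {z | 1 ≤ z 0 ∧ z 0 ≤ 2 ∧ 0 ≤ z 1}

theorem strip_closed : IsClosed strip := by
  have h1 : Continuous (fun z : EuclideanSpace ℝ (Fin 2) => z 0) := by fun_prop
  have h2 : Continuous (fun z : EuclideanSpace ℝ (Fin 2) => z 1) := by fun_prop
  exact (isClosed_le continuous_const h1).inter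
    ((isClosed_le h1 continuous_const).inter (isClosed_le continuous_const h2))

theorem strip_conn : IsConnected strip := by
  refine ⟨⟨!₂[1, 0], ?_⟩, ?_⟩
  · show (1 : ℝ) ≤ 1 ∧ (1 : ℝ) ≤ 2 ∧ (0 : ℝ) ≤ 0
    norm_num
  · apply Convex.isPreconnected
    intro x hx y hy a b ha hb hab
    obtain ⟨x1, x2, x3⟩ := hx
    obtain ⟨y1, y2, y3⟩ := hy
    show 1 ≤ a * x 0 + b * y 0 ∧ a * x 0 + b * y 0 ≤ 2 ∧ 0 ≤ a * x 1 + b * y 1
    refine ⟨by nlinarith, by nlinarith, by positivity⟩

theorem half_conn (P : EuclideanSpace ℝ (Fin 2) → ℝ) (hP : ∀ x y a b, P (a • x + b • y) =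
    a * P x + b * P y) (hne : ∃ x, 0 < P x) (c : ℝ) :
    IsConnected {z : EuclideanSpace ℝ (Fin 2) | c < P z} := by
  constructor
  · obtain ⟨x, hx⟩ := hne
    refine ⟨((|c| + 1) / P x) • x, ?_⟩
    have h := hP x x ((|c| + 1) / P x) 0
    rw [zero_smul, add_zero, zero_mul, add_zero] at h
    show c < P _
    rw [h, div_mul_cancel₀ _ hx.ne']
    have := le_abs_self c
    linarith
  · apply Convex.isPreconnected
    intro x hx y hy a b ha hb hab
    have hx' : c < P x := hx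
    have hy' : c < P y := hy
    show c < P _
    rw [hP]
    rcases eq_or_lt_of_le ha with h0 | h0
    · have : b = 1 := by linarith
      rw [← h0, this]
      linarith
    · have e1 : a * c < a * P x := mul_lt_mul_of_pos_left hx' h0
      have e2 : b * c ≤ b * P y := mul_le_mul_of_nonneg_left hy'.le hb
      have e3 : a * c + b * c = c := by rw [← add_mul, hab, one_mul]
      linarith

theorem strip_compl : IsConnected stripᶜ := by
  have h0 := half_conn (fun z => -z 0) (by intro x y a b; simp; ring) ⟨!₂[-1, 0], by simp⟩ (-1)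
  have h1 := half_conn (fun z => -z 1) (by intro x y a b; simp; ring) ⟨!₂[0, -1], by simp⟩ 0
  have h2 := half_conn (fun z => z 0) (by intro x y a b; simp) ⟨!₂[1, 0], by simp⟩ 2
  have e : stripᶜ = ({z : EuclideanSpace ℝ (Fin 2) | -1 < -z 0} ∪ {z | 0 < -z 1}) ∪
      {z | 2 < z 0} := by
    ext z
    show ¬ (1 ≤ z 0 ∧ z 0 ≤ 2 ∧ 0 ≤ z 1) ↔ ((-1 < -z 0) ∨ 0 < -z 1) ∨ 2 < z 0
    constructor
    · intro h
      by_contra hno
      push Not at hno
      exact h ⟨by linarith [hno.1.1], hno.2, by linarith [hno.1.2]⟩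
    · rintro h ⟨h1, h2, h3⟩
      rcases h with (h | h) | h <;> linarith
  rw [e]
  refine IsConnected.union ⟨!₂[3, -1], Or.inr ?_, ?_⟩
    (IsConnected.union ⟨!₂[0, -1], ?_, ?_⟩ h0 h1) h2
  · show (0 : ℝ) < -(-1)
    norm_num
  · show (2 : ℝ) < 3
    norm_num
  · show (-1 : ℝ) < -0
    norm_num
  · show (0 : ℝ) < -(-1)
    norm_num

/-- the angle -/
noncomputable def ang (t : ℝ) : ℝ := 2 * Real.pi * (t / (1 + t))

/-- the isometry between the complex numbers and the plane -/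
noncomputable def ee : ℂ ≃ₗᵢ[ℝ] EuclideanSpace ℝ (Fin 2) := Complex.orthonormalBasisOneI.repr

/-- the strip is wrapped around an annulus -/
noncomputable def wrap (z : strip) : EuclideanSpace ℝ (Fin 2) :=
  ee (((z.1 0 : ℝ) : ℂ) * Complex.exp ((ang (z.1 1) : ℝ) * Complex.I))

theorem wrap_cont : Continuous wrap := by
  unfold wrap
  apply ee.continuous.comp
  have h1 : Continuous (fun z : strip => (z.1 0 : ℝ)) := by fun_prop
  have h2 : Continuous (fun z : strip => (z.1 1 : ℝ)) := by fun_prop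
  have h3 : Continuous (fun z : strip => ang (z.1 1)) := by
    unfold ang
    apply continuous_const.mul
    apply h2.div (continuous_const.add h2)
    intro z
    have h : (0 : ℝ) ≤ z.1 1 := z.2.2.2
    show (1 : ℝ) + z.1 1 ≠ 0
    exact ne_of_gt (by linarith)
  fun_prop

theorem ang_mem {t : ℝ} (ht : 0 ≤ t) : 0 ≤ ang t ∧ ang t < 2 * Real.pi := by
  unfold ang
  have hp := Real.pi_pos
  have h1 : 0 ≤ t / (1 + t) := by positivity
  have h2 : t / (1 + t) < 1 := by
    rw [div_lt_one (by positivity)]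
    linarith
  constructor
  · positivity
  · nlinarith

theorem ang_inj {s t : ℝ} (hs : 0 ≤ s) (ht : 0 ≤ t) (h : ang s = ang t) : s = t := by
  unfold ang at h
  have h1 : s / (1 + s) = t / (1 + t) := mul_left_cancel₀ Real.two_pi_pos.ne' h
  rw [div_eq_div_iff (by positivity) (by positivity)] at h1
  linarith

theorem wrap_inj : Function.Injective wrap := by
  intro z w h
  have h1 := ee.injective h
  have hz := z.2
  have hw := w.2
  have hz0 : 0 < z.1 0 := lt_of_lt_of_le one_pos hz.1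
  have hw0 : 0 < w.1 0 := lt_of_lt_of_le one_pos hw.1
  have h2 : z.1 0 = w.1 0 := by
    have := congrArg norm h1
    rwa [norm_mul, norm_mul, Complex.norm_exp_ofReal_mul_I, Complex.norm_exp_ofReal_mul_I,
      mul_one, mul_one, Complex.norm_real, Complex.norm_real, Real.norm_eq_abs, Real.norm_eq_abs,
      abs_of_pos hz0, abs_of_pos hw0] at this
  rw [h2] at h1
  have h3 := mul_left_cancel₀ (Complex.ofReal_ne_zero.2 hw0.ne') h1
  rw [Complex.exp_eq_exp_iff_exists_int] at h3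
  obtain ⟨n, hn⟩ := h3
  have h4 : ang (z.1 1) = ang (w.1 1) + n * (2 * Real.pi) := by
    have h5 : ((ang (z.1 1) : ℝ) : ℂ) * Complex.I =
        ((ang (w.1 1) + n * (2 * Real.pi) : ℝ) : ℂ) * Complex.I := by
      rw [hn]
      push_cast
      ring
    exact_mod_cast mul_right_cancel₀ Complex.I_ne_zero h5
  obtain ⟨a1, a2⟩ := ang_mem hz.2.2
  obtain ⟨b1, b2⟩ := ang_mem hw.2.2
  have hp := Real.pi_pos
  have h5 : n = 0 := by
    have c1 : (n : ℝ) < 1 := by
      by_contra hh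
      push Not at hh
      nlinarith
    have c2 : (-1 : ℝ) < n := by
      by_contra hh
      push Not at hh
      nlinarith
    have c3 : n < 1 := by exact_mod_cast c1
    have c4 : -1 < n := by exact_mod_cast c2
    omega
  rw [h5, Int.cast_zero, zero_mul, add_zero] at h4
  have h6 := ang_inj hz.2.2 hw.2.2 h4
  apply Subtype.ext
  ext i
  fin_cases i
  · exact h2
  · exact h6

theorem wrap_not : ¬ IsEmbedding wrap := by
  intro hemb
  have hmem : ∀ k : ℕ, (!₂[1, (k : ℝ)] : EuclideanSpace ℝ (Fin 2)) ∈ strip := by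
    intro k
    show (1 : ℝ) ≤ 1 ∧ (1 : ℝ) ≤ 2 ∧ (0 : ℝ) ≤ (k : ℝ)
    refine ⟨le_rfl, by norm_num, by positivity⟩
  have hop : IsOpen {z : strip | (z.1 1 : ℝ) < 1} := isOpen_lt (by fun_prop) continuous_const
  have h1 : {z : strip | (z.1 1 : ℝ) < 1} ∈ 𝓝 (⟨!₂[1, ((0 : ℕ) : ℝ)], hmem 0⟩ : strip) := by
    apply hop.mem_nhds
    show ((0 : ℕ) : ℝ) < 1
    norm_num
  rw [hemb.isInducing.nhds_eq_comap, Filter.mem_comap] at h1
  obtain ⟨t, ht, htA⟩ := h1
  have hw : ∀ k : ℕ, wrap ⟨!₂[1, (k : ℝ)], hmem k⟩ =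
      ee (Complex.exp (((2 * Real.pi * ((k : ℝ) / ((k : ℝ) + 1)) : ℝ) : ℂ) * Complex.I)) := by
    intro k
    show ee ((((1 : ℝ)) : ℂ) * Complex.exp ((ang (k : ℝ) : ℝ) * Complex.I)) = _
    unfold ang
    rw [Complex.ofReal_one, one_mul, add_comm (1 : ℝ) (k : ℝ)]
  have hlim : Tendsto (fun k : ℕ => wrap ⟨!₂[1, (k : ℝ)], hmem k⟩) atTop
      (𝓝 (wrap ⟨!₂[1, ((0 : ℕ) : ℝ)], hmem 0⟩)) := by
    have e0 : wrap ⟨!₂[1, ((0 : ℕ) : ℝ)], hmem 0⟩ =
        ee (Complex.exp (((2 * Real.pi * 1 : ℝ) : ℂ) * Complex.I)) := by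
      rw [hw]
      congr 1
      rw [mul_one]
      push_cast
      rw [Complex.exp_two_pi_mul_I]
      simp
    rw [e0]
    simp only [hw]
    have h2 : Tendsto (fun k : ℕ => 2 * Real.pi * ((k : ℝ) / ((k : ℝ) + 1))) atTop
        (𝓝 (2 * Real.pi * 1)) :=
      (tendsto_natCast_div_add_atTop (1 : ℝ)).const_mul _
    have h3 : Continuous (fun s : ℝ => ee (Complex.exp ((s : ℂ) * Complex.I))) := by
      apply ee.continuous.comp
      fun_prop
    exact (h3.tendsto _).comp h2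
  obtain ⟨N, hN⟩ := (hlim.eventually ht).exists_forall_of_atTop
  have h4 := hN (N + 1) (by omega)
  have h5 : (⟨!₂[1, ((N + 1 : ℕ) : ℝ)], hmem (N + 1)⟩ : strip) ∈ {z : strip | (z.1 1 : ℝ) < 1} :=
    htA h4
  have h6 : ((N + 1 : ℕ) : ℝ) < 1 := h5
  push_cast at h6
  have : (0 : ℝ) ≤ N := by positivity
  linarith

end Pool.Agent.Y240.IR
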