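import Mathlib
import Pool.Agent.Helper514.IoD

/-!
# Sets on which continuous injections are embeddings: the sufficient condition
-/

set_option autoImplicit false

open Complex Topology Set Metric Filter

namespace Pool.Agent.Y240.IR

theorem exists_log {E : Type*} [NormedAddCommGroup E] [NormedSpace ℝ E] (g : E → ℂ)
    (hg : Continuous g) (h0 : ∀ x, g x ≠ 0) :
    ∃ L : E → ℂ, Continuous L ∧ ∀ x, Complex.exp (L x) = g x := by
  have h := Complex.isCoveringMapOn_exp.existsUnique_continuousMap_lifts (A := E)
    (⟨g, hg⟩ : C(E, ℂ)) (a₀ := 0) (e₀ := Complex.log (g 0)) (Complex.exp_log (h0 0))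
    (fun a => by simpa using h0 a)
  obtain ⟨F, ⟨_, hF⟩, _⟩ := h
  refine ⟨F, F.continuous, fun x => ?_⟩
  have := congrFun hF x
  simpa using this

/-- the level sets of a continuous function with values in `2πiℤ` are open and closed -/
theorem isClopen_level {Y : Type*} [TopologicalSpace Y] (D : Y → ℂ) (hD : Continuous D)
    (h : ∀ y, Complex.exp (D y) = 1) (x : Y) : IsClopen {y | D y = D x} := by
  constructor
  · exact isClosed_eq hD continuous_const
  · have : {y | D y = D x} = {y | ‖D y - D x‖ < 1} := by
      ext y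
      show D y = D x ↔ ‖D y - D x‖ < 1
      constructor
      · intro hy
        rw [hy]
        simp
      · intro hy
        have h1 := (h y).trans (h x).symm
        rw [Complex.exp_eq_exp_iff_exists_int] at h1
        obtain ⟨n, hn⟩ := h1
        rw [hn] at hy ⊢
        have h2 : D x + n * (2 * Real.pi * I) - D x = ((n * (2 * Real.pi) : ℝ) : ℂ) * I := by
          push_cast
          ring
        rw [h2, norm_mul, Complex.norm_I, mul_one, Complex.norm_real, Real.norm_eq_abs,
          abs_mul, abs_of_pos Real.two_pi_pos] at hy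
        have h3 : n = 0 := by
          by_contra hne
          have h4 : (1 : ℝ) ≤ |(n : ℝ)| := by
            exact_mod_cast Int.one_le_abs hne
          have h5 := Real.pi_gt_three
          nlinarith
        rw [h3]
        simp
    rw [this]
    exact isOpen_lt (by fun_prop) continuous_const

variable {E : Type*} [NormedAddCommGroup E] [InnerProductSpace ℝ E] [FiniteDimensional ℝ E]

/-- invariance of domain for maps defined on a subset -/
theorem iod {X : Set E} (f : X → E) (hf : Continuous f) (hi : Function.Injective f) (z : X)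
    {r : ℝ} (hr : 0 < r) (hs : closedBall (z : E) r ⊆ X) :
    f '' (Subtype.val ⁻¹' closedBall (z : E) r) ∈ 𝓝 (f z) := by
  have hF : ∀ y : X, Function.extend Subtype.val f 0 (y : E) = f y := fun y =>
    Subtype.val_injective.extend_apply f 0 y
  have hr1 : X.domRestrict (Function.extend Subtype.val f 0) = f := by
    funext y
    exact hF y
  have h1 : ContinuousOn (Function.extend Subtype.val f 0) X := by
    rw [continuousOn_iff_continuous_domRestrict, hr1]
    exact hf
  have h2 : InjOn (Function.extend Subtype.val f 0) X := by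
    intro a ha b hb hab
    have h3 := hF ⟨a, ha⟩
    have h4 := hF ⟨b, hb⟩
    simp only at h3 h4
    rw [h3, h4] at hab
    exact congrArg Subtype.val (hi hab)
  have h5 := Pool.Agent.Helper514.IoD.image_mem_nhds (Function.extend Subtype.val f 0) (z : E) r
    hr (h1.mono hs) (h2.mono hs)
  rw [hF z] at h5
  refine mem_of_superset h5 ?_
  rintro _ ⟨y, hy, rfl⟩
  exact ⟨⟨y, hs hy⟩, hy, (hF ⟨y, hs hy⟩).symm⟩

/-- The sufficient condition. -/
theorem suff (X : Set E) [LocallyCompactSpace X]
    (hK : ∀ x ∈ X \ interior X, ∃ O : Set E, IsOpen O ∧ x ∈ O ∧ IsCompact (O ∩ (X \ interior X)))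
    (hA : ∀ A : Set X, IsClopen A → (∃ x ∈ A, (x : E) ∉ interior X) → IsCompact Aᶜ)
    (f : X → E) (hf : Continuous f) (hi : Function.Injective f) : IsEmbedding f := by
  refine ⟨?_, hi⟩
  rw [isInducing_iff_nhds]
  intro x
  refine le_antisymm (hf.tendsto x).le_comap ?_
  intro U hU
  obtain ⟨V, hVU, hVo, hxV⟩ := _root_.mem_nhds_iff.mp hU
  rw [Filter.mem_comap]
  by_cases hx : (x : E) ∈ interior X
  · obtain ⟨V', hV'o, hV'⟩ := isOpen_induced_iff.1 hVo
    have hmem : interior X ∩ V' ∈ 𝓝 (x : E) := by
      apply (isOpen_interior.inter hV'o).mem_nhds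
      refine ⟨hx, ?_⟩
      have : x ∈ Subtype.val ⁻¹' V' := by rw [hV']; exact hxV
      exact this
    obtain ⟨r, hr, hrs⟩ := Metric.nhds_basis_closedBall.mem_iff.1 hmem
    refine ⟨_, iod f hf hi x hr (hrs.trans (inter_subset_left.trans interior_subset)), ?_⟩
    rintro y ⟨y', hy', hyy⟩
    rw [← hi hyy]
    apply hVU
    rw [← hV']
    exact (hrs hy').2
  · obtain ⟨O, hOo, hxO, hOc⟩ := hK x ⟨x.2, hx⟩
    have hs : IsCompact (Subtype.val ⁻¹' (O ∩ (X \ interior X)) : Set X) := by
      rw [Subtype.isCompact_iff, Subtype.image_preimage_coe]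
      have : X ∩ (O ∩ (X \ interior X)) = O ∩ (X \ interior X) := by
        ext y
        constructor
        · exact fun h => h.2
        · exact fun h => ⟨h.2.1, h⟩
      rw [this]
      exact hOc
    have ht : IsClosed ((Subtype.val ⁻¹' O : Set X)ᶜ) :=
      (hOo.preimage continuous_subtype_val).isClosed_compl
    have hd : Disjoint (Subtype.val ⁻¹' (O ∩ (X \ interior X)) : Set X)
        ((Subtype.val ⁻¹' O : Set X)ᶜ) := by
      rw [Set.disjoint_left]
      intro y hy hy'
      exact hy' hy.1
    obtain ⟨φ, h1, h0, hc, h01⟩ := exists_continuous_one_zero_of_isCompact hs ht hd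
    have hφ1 : ∀ y : X, (y : E) ∈ O → (y : E) ∉ interior X → φ y = 1 := by
      intro y hy hy'
      have := h1 (x := y) ⟨hy, y.2, hy'⟩
      simpa using this
    have hφ0 : ∀ y : X, (y : E) ∉ O → φ y = 0 := by
      intro y hy
      have := h0 (x := y) hy
      simpa using this
    have hCc : IsCompact (f '' tsupport φ) := IsCompact.image hc hf
    have hCcl : IsClosed (f '' tsupport φ) := hCc.isClosed
    have hΦ : ∀ z : X, Function.extend f φ 0 (f z) = φ z := fun z => hi.extend_apply φ 0 z
    have hΦ0 : ∀ w, w ∉ f '' tsupport φ → Function.extend f φ 0 w = 0 := by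
      intro w hw
      by_cases hwr : ∃ z, f z = w
      · obtain ⟨z, rfl⟩ := hwr
        rw [hΦ]
        apply image_eq_zero_of_notMem_tsupport
        intro hz
        exact hw ⟨z, hz, rfl⟩
      · rw [Function.extend_apply' _ _ _ hwr]
        rfl
    generalize hΦdef : Function.extend f φ 0 = Φ at hΦ hΦ0
    have hg1 : ∀ w, Φ w = 0 ∨ Φ w = 1 → Complex.exp ((Φ w : ℂ) * (2 * Real.pi * I)) = 1 := by
      intro w hw
      rcases hw with hw | hw
      · rw [hw]; simp
      · rw [hw]
        simp [Complex.exp_two_pi_mul_I]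
    have hgf : Continuous (fun z : X => Complex.exp ((Φ (f z) : ℂ) * (2 * Real.pi * I))) := by
      simp only [hΦ]
      fun_prop
    have hgC : ContinuousOn (fun w => Complex.exp ((Φ w : ℂ) * (2 * Real.pi * I)))
        (f '' tsupport φ) := by
      rw [continuousOn_iff_isClosed]
      intro S hS
      have hcl : IsClosed ((fun z : X => Complex.exp ((Φ (f z) : ℂ) * (2 * Real.pi * I))) ⁻¹' S) :=
        hS.preimage hgf
      have hcc : IsCompact (tsupport φ ∩
          (fun z : X => Complex.exp ((Φ (f z) : ℂ) * (2 * Real.pi * I))) ⁻¹' S) :=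
        IsCompact.inter_right hc hcl
      refine ⟨_, (hcc.image hf).isClosed, ?_⟩
      ext w
      constructor
      · rintro ⟨hw, z, hz, rfl⟩
        exact ⟨⟨z, ⟨hz, hw⟩, rfl⟩, ⟨z, hz, rfl⟩⟩
      · rintro ⟨⟨z, ⟨hz, hzw⟩, rfl⟩, hw⟩
        exact ⟨hzw, hw⟩
    have hg : Continuous (fun w => Complex.exp ((Φ w : ℂ) * (2 * Real.pi * I))) := by
      rw [continuous_iff_continuousAt]
      intro w0
      by_cases hw0 : w0 ∈ f '' tsupport φ
      · by_cases h10 : Φ w0 = 0 ∨ Φ w0 = 1
        · rw [← continuousWithinAt_univ, ← Set.union_compl_self (f '' tsupport φ)]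
          refine (hgC w0 hw0).union ?_
          have hc1 : ContinuousWithinAt (fun _ : E => (1 : ℂ)) (f '' tsupport φ)ᶜ w0 :=
            continuousWithinAt_const
          exact hc1.congr (fun w hw => hg1 w (Or.inl (hΦ0 w hw))) (hg1 w0 h10)
        · apply hgC.continuousAt
          obtain ⟨z0, hz0, rfl⟩ := hw0
          rw [hΦ] at h10
          push Not at h10
          have hz0O : (z0 : E) ∈ O := by
            by_contra h
            exact h10.1 (hφ0 z0 h)
          have hz0i : (z0 : E) ∈ interior X := by
            by_contra h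
            exact h10.2 (hφ1 z0 hz0O h)
          have hop : IsOpen {z : X | φ z ≠ 0} := isOpen_ne_fun φ.continuous continuous_const
          obtain ⟨V', hV'o, hV'⟩ := isOpen_induced_iff.1 hop
          have hmem : interior X ∩ V' ∈ 𝓝 (z0 : E) := by
            apply (isOpen_interior.inter hV'o).mem_nhds
            refine ⟨hz0i, ?_⟩
            have : z0 ∈ Subtype.val ⁻¹' V' := by rw [hV']; exact h10.1
            exact this
          obtain ⟨r, hr, hrs⟩ := Metric.nhds_basis_closedBall.mem_iff.1 hmem
          refine mem_of_superset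
            (iod f hf hi z0 hr (hrs.trans (inter_subset_left.trans interior_subset))) ?_
          apply image_mono
          intro y hy
          have : y ∈ Subtype.val ⁻¹' V' := (hrs hy).2
          rw [hV'] at this
          exact subset_tsupport φ this
      · have hev : (fun w => Complex.exp ((Φ w : ℂ) * (2 * Real.pi * I))) =ᶠ[𝓝 w0]
            fun _ => (1 : ℂ) := by
          filter_upwards [hCcl.isOpen_compl.mem_nhds hw0] with w hw
          exact hg1 w (Or.inl (hΦ0 w hw))
        exact continuousAt_const.congr hev.symm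
    obtain ⟨L, hL, hLe⟩ := exists_log _ hg (fun w => Complex.exp_ne_zero _)
    have hDc : Continuous (fun z : X => L (f z) - (φ z : ℂ) * (2 * Real.pi * I)) := by
      have h2 : Continuous (fun z : X => L (f z)) := hL.comp hf
      fun_prop
    have hD1 : ∀ z : X, Complex.exp (L (f z) - (φ z : ℂ) * (2 * Real.pi * I)) = 1 := by
      intro z
      rw [Complex.exp_sub, hLe, hΦ]
      exact div_self (Complex.exp_ne_zero _)
    have hcl := isClopen_level _ hDc hD1 x
    have hAc := hA _ hcl ⟨x, rfl, hx⟩
    have hQ : IsCompact (({y : X | L (f y) - (φ y : ℂ) * (2 * Real.pi * I) =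
        L (f x) - (φ x : ℂ) * (2 * Real.pi * I)}ᶜ ∪ tsupport φ) \ V) :=
      (hAc.union hc).diff hVo
    refine ⟨(f '' (({y : X | L (f y) - (φ y : ℂ) * (2 * Real.pi * I) =
        L (f x) - (φ x : ℂ) * (2 * Real.pi * I)}ᶜ ∪ tsupport φ) \ V))ᶜ ∩
        {w | ‖L w - L (f x)‖ < 1}, ?_, ?_⟩
    · apply Filter.inter_mem
      · apply (hQ.image hf).isClosed.isOpen_compl.mem_nhds
        rintro ⟨y, hy, hyx⟩
        rw [hi hyx] at hy
        exact hy.2 hxV
      · apply (isOpen_lt (by fun_prop) continuous_const).mem_nhds
        show ‖L (f x) - L (f x)‖ < 1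
        simp
    · rintro y ⟨hy1, hy2⟩
      apply hVU
      by_contra hyV
      have hyn : ¬ (y ∈ ({y : X | L (f y) - (φ y : ℂ) * (2 * Real.pi * I) =
        L (f x) - (φ x : ℂ) * (2 * Real.pi * I)}ᶜ ∪ tsupport φ)) := by
        intro h
        exact hy1 ⟨y, ⟨h, hyV⟩, rfl⟩
      have hyA : L (f y) - (φ y : ℂ) * (2 * Real.pi * I) =
          L (f x) - (φ x : ℂ) * (2 * Real.pi * I) := by
        by_contra h
        exact hyn (Or.inl h)
      have hy0 : φ y = 0 := by
        apply image_eq_zero_of_notMem_tsupport
        intro h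
        exact hyn (Or.inr h)
      rw [hy0, hφ1 x hxO hx] at hyA
      have h3 : L (f y) - L (f x) = -(((2 * Real.pi : ℝ) : ℂ) * I) := by
        have h4 : L (f y) = L (f x) - 2 * Real.pi * I := by
          have := hyA
          simpa using this
        rw [h4]
        push_cast
        ring
      have hy3 : ‖L (f y) - L (f x)‖ < 1 := hy2
      rw [h3, norm_neg, norm_mul, Complex.norm_I, mul_one, Complex.norm_real, Real.norm_eq_abs,
        abs_of_pos Real.two_pi_pos] at hy3
      have := Real.pi_gt_three
      linarith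

end Pool.Agent.Y240.IR
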